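import Pool.Agent.H548R3.PMult
import Pool.Agent.H548R3.PConstr

/-!
MP_557517_an, Q1. For every `p` in `(0, 1]` and every countable proper metric space `M` the
Lipschitz free `p`-space over `M` has the metric approximation property.

Idea: for a point `x₀` the map `x ↦ g(x) (δ x - δ x₀)` is `1`-Lipschitz if `0 ≤ g ≤ 1 - ε` and `g` is
a function of `log (dist x x₀)` with small slope. Such cutoffs are applied at infinity and then at
the points of an enumeration of `M`; by compactness finitely many steps reach a finite set.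
-/

set_option autoImplicit false
set_option linter.unusedSectionVars false

open Set Filter Topology
open Pool.Agent.H548R3.PFree

namespace Pool.Agent.Results.MP_557517_an.CountableProperMAP

/-- The metric approximation property. -/
def HasMAP (p : ℝ) (Z : Type) [NormedAddCommGroup Z] [Module ℝ Z] : Prop :=
  ∀ C : Set Z, IsCompact C → ∀ ε : ℝ, 0 < ε →
    ∃ T : Z →L[ℝ] Z, FiniteDimensional ℝ (LinearMap.range (T : Z →ₗ[ℝ] Z)) ∧
      (∀ z, pnorm p (T z) ≤ pnorm p z) ∧ ∀ z ∈ C, pnorm p (T z - z) ≤ ε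

section

variable {p : ℝ} [hp : Fact (0 < p ∧ p ≤ 1)] {M : Type} [MetricSpace M] {o : M}
  {Z : Type} [NormedAddCommGroup Z] [Module ℝ Z] {δ : M → Z}

/-- cutoff operators of norm at most one -/
theorem exists_cut (h : IsLipschitzFree p M o Z δ) (x₀ : M) (g : M → ℝ) {ε s : ℝ} (hε : 0 < ε)
    (hε1 : ε < 1) (hs : 0 ≤ s) (hes : (1 - ε) ^ p + s ^ p ≤ 1) (hg0 : ∀ x, 0 ≤ g x)
    (hg1 : ∀ x, g x ≤ 1 - ε)
    (hgs : ∀ x y, x ≠ x₀ → dist x x₀ ≤ dist y x₀ → |g x - g y| * dist x x₀ ≤ s * dist x y) :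
    ∃ T : Z →L[ℝ] Z,
      (∀ x y, T (δ x - δ y) = g x • (δ x - δ x₀) - g y • (δ y - δ x₀)) ∧ ∀ z, ‖T z‖ ≤ ‖z‖ := by
  have h0 := hp.out.1
  have hsm := h.banach.1
  have key : ∀ x y, dist x x₀ ≤ dist y x₀ →
      ‖g x • (δ x - δ x₀) - g y • (δ y - δ x₀)‖ ≤ dist x y ^ p := by
    intro x y hxy
    have hgy : |g y| ^ p ≤ (1 - ε) ^ p := by
      rw [abs_of_nonneg (hg0 y)]
      exact Real.rpow_le_rpow (hg0 y) (hg1 y) h0.le
    have hd : 0 ≤ dist x y ^ p := Real.rpow_nonneg dist_nonneg _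
    have hsp : 0 ≤ s ^ p := Real.rpow_nonneg hs _
    rcases eq_or_ne x x₀ with rfl | hx
    · rw [sub_self, smul_zero, zero_sub, norm_neg, hsm, norm_delta_sub h, dist_comm y x]
      calc |g y| ^ p * dist x y ^ p ≤ 1 * dist x y ^ p :=
            mul_le_mul_of_nonneg_right (by linarith) hd
        _ = _ := one_mul _
    · have h1 : g x • (δ x - δ x₀) - g y • (δ y - δ x₀) =
          g y • (δ x - δ y) + (g x - g y) • (δ x - δ x₀) := by
        simp only [smul_sub, sub_smul]; abel
      rw [h1]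
      refine (norm_add_le _ _).trans ?_
      rw [hsm, hsm, norm_delta_sub h, norm_delta_sub h]
      have h2 : |g x - g y| ^ p * dist x x₀ ^ p ≤ s ^ p * dist x y ^ p := by
        rw [← Real.mul_rpow (abs_nonneg _) dist_nonneg, ← Real.mul_rpow hs dist_nonneg]
        exact Real.rpow_le_rpow (mul_nonneg (abs_nonneg _) dist_nonneg) (hgs x y hx hxy) h0.le
      have h3 : |g y| ^ p * dist x y ^ p ≤ (1 - ε) ^ p * dist x y ^ p :=
        mul_le_mul_of_nonneg_right hgy hd
      nlinarith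
  have key2 : ∀ x y, ‖g x • (δ x - δ x₀) - g y • (δ y - δ x₀)‖ ≤ dist x y ^ p := by
    intro x y
    rcases le_total (dist x x₀) (dist y x₀) with hxy | hxy
    · exact key x y hxy
    · rw [norm_sub_rev, dist_comm]
      exact key y x hxy
  set f : M → Z := fun x => g x • (δ x - δ x₀) - g o • (δ o - δ x₀) with hf
  have hfs : ∀ x y, f x - f y = g x • (δ x - δ x₀) - g y • (δ y - δ x₀) := by
    intro x y
    simp only [hf]
    abel
  have hflip : ∀ x y, pnorm p (f x - f y) ≤ 1 * dist x y := by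
    intro x y
    rw [one_mul, pnorm_le_iff _ dist_nonneg, hfs]
    exact key2 x y
  obtain ⟨T, hT1, hT2, -⟩ := h.lift Z h.banach f (by simp only [hf]; abel) ⟨1, hflip⟩
  refine ⟨T, fun x y => ?_, fun z => ?_⟩
  · rw [map_sub, hT1, hT1, hfs]
  · have h1 := (hT2 1 zero_le_one).1 hflip z
    rw [one_mul, pnorm_le_iff _ (pnorm_nonneg _), pnorm_rpow] at h1
    exact h1

lemma clamp_sub_le (c u v : ℝ) : |max 0 (min c u) - max 0 (min c v)| ≤ |u - v| := by
  refine (abs_max_zero _ _).trans ?_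
  rw [min_comm c u, min_comm c v]
  have := abs_min_sub_min_le_max u c v c
  rwa [sub_self, abs_zero, max_eq_left (abs_nonneg _)] at this

lemma log_sub_mul_le {a b : ℝ} (ha : 0 < a) (hab : a ≤ b) :
    |Real.log a - Real.log b| * a ≤ b - a := by
  have hb : 0 < b := lt_of_lt_of_le ha hab
  have h1 : Real.log a ≤ Real.log b := Real.log_le_log ha hab
  rw [abs_of_nonpos (by linarith), neg_sub, ← Real.log_div hb.ne' ha.ne']
  have h2 := Real.log_le_sub_one_of_pos (div_pos hb ha)
  calc Real.log (b / a) * a ≤ (b / a - 1) * a := mul_le_mul_of_nonneg_right h2 ha.le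
    _ = b - a := by field_simp

/-- choice of parameters, and a criterion for closeness to the identity -/
theorem cut_approx (h : IsLipschitzFree p M o Z δ) (C : Set Z) (hC : IsCompact C) {η : ℝ}
    (hη : 0 < η) : ∃ (A : Finset M) (ε s : ℝ), 0 < ε ∧ ε < 1 ∧ 0 < s ∧ (1 - ε) ^ p + s ^ p ≤ 1 ∧
      ∀ (x₀ : M) (T : Z →L[ℝ] Z) (g : M → ℝ),
        (∀ x y, T (δ x - δ y) = g x • (δ x - δ x₀) - g y • (δ y - δ x₀)) → (∀ z, ‖T z‖ ≤ ‖z‖) →
        (∀ x ∈ A, x ≠ x₀ → g x = 1 - ε) → ∀ z ∈ C, ‖T z - z‖ < η := by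
  classical
  have h0 := hp.out.1
  obtain ⟨A, -, hA⟩ := exists_finite_approx (δ := δ) Set.univ C hC (by
    rw [image_univ]
    intro z _
    exact h.dense z) (η := η / 4) (by positivity)
  obtain ⟨B, hB⟩ := hC.isBounded.exists_norm_le
  set B' : ℝ := max B 0 + η / 4 with hB'
  have hB'0 : 0 < B' := by
    have := le_max_right B 0
    linarith
  set ε : ℝ := min (1 / 2) ((η / 4 / B') ^ (1 / p)) with hεdef
  have hε0 : 0 < ε := lt_min (by norm_num) (Real.rpow_pos_of_pos (by positivity) _)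
  have hε1 : ε < 1 := lt_of_le_of_lt (min_le_left _ _) (by norm_num)
  have hεp : ε ^ p * B' ≤ η / 4 := by
    have h1 : ε ^ p ≤ ((η / 4 / B') ^ (1 / p)) ^ p :=
      Real.rpow_le_rpow hε0.le (min_le_right _ _) h0.le
    rw [← Real.rpow_mul (by positivity), one_div_mul_cancel h0.ne', Real.rpow_one] at h1
    rwa [le_div_iff₀ hB'0] at h1
  have h1ε : (1 - ε) ^ p < 1 := Real.rpow_lt_one (by linarith) (by linarith) h0
  refine ⟨insert o A, ε, (1 - (1 - ε) ^ p) ^ (1 / p), hε0, hε1,
    Real.rpow_pos_of_pos (by linarith) _, ?_, ?_⟩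
  · rw [← Real.rpow_mul (by linarith), one_div_mul_cancel h0.ne', Real.rpow_one]
    linarith
  · intro x₀ T g hT hTn hg z hz
    have hg' : ∀ x ∈ insert o A, g x • (δ x - δ x₀) = (1 - ε) • (δ x - δ x₀) := by
      intro x hx
      rcases eq_or_ne x x₀ with rfl | hne
      · rw [sub_self, smul_zero, smul_zero]
      · rw [hg x hx hne]
    have hTδ : ∀ x ∈ A, T (δ x) = (1 - ε) • δ x := by
      intro x hx
      have h2 := hT x o
      rw [h.base, sub_zero] at h2
      rw [h2, hg' x (Finset.mem_insert_of_mem hx), ← h.base, hg' o (Finset.mem_insert_self _ _),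
        h.base]
      simp only [smul_sub, smul_zero]
      abel
    obtain ⟨l, hl1, hl2⟩ := hA z hz
    set w : Z := l.sum (fun x c => c • δ x) with hw
    have hTw : T w = (1 - ε) • w := by
      rw [hw]
      unfold Finsupp.sum
      rw [map_sum, Finset.smul_sum]
      refine Finset.sum_congr rfl fun x hx => ?_
      rw [map_smul, hTδ x (hl1 hx), smul_comm]
    have hzB : ‖z‖ ≤ max B 0 := (hB z hz).trans (le_max_left _ _)
    have hwn : ‖w‖ ≤ B' := by
      have h2 : w = z - (z - w) := by abel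
      rw [h2]
      refine (norm_sub_le _ _).trans ?_
      linarith
    have h3 : ‖T w - w‖ ≤ η / 4 := by
      have h4 : T w - w = (-ε) • w := by
        rw [hTw, sub_smul, one_smul, neg_smul]
        abel
      rw [h4, h.banach.1, abs_neg, abs_of_pos hε0]
      exact (mul_le_mul_of_nonneg_left hwn (Real.rpow_nonneg hε0.le _)).trans hεp
    have h5 : T z - z = T (z - w) + (T w - w) + (w - z) := by
      rw [map_sub]; abel
    rw [h5]
    refine (norm_add₃_le).trans_lt ?_
    have h6 := hTn (z - w)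
    have h7 : ‖w - z‖ = ‖z - w‖ := norm_sub_rev _ _
    linarith

/-- cutoff near a point -/
theorem near (h : IsLipschitzFree p M o Z δ) (C : Set Z) (hC : IsCompact C) {η : ℝ}
    (hη : 0 < η) (x₀ : M) : ∃ (T : Z →L[ℝ] Z) (g : M → ℝ) (r : ℝ), 0 < r ∧
      (∀ x y, T (δ x - δ y) = g x • (δ x - δ x₀) - g y • (δ y - δ x₀)) ∧ (∀ z, ‖T z‖ ≤ ‖z‖) ∧
      (∀ x, x ≠ x₀ → dist x x₀ < r → g x = 0) ∧ ∀ z ∈ C, ‖T z - z‖ < η := by
  classical
  obtain ⟨A, ε, s, hε, hε1, hs, hes, hA⟩ := cut_approx h C hC hη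
  obtain ⟨d, hd, hdA⟩ : ∃ d : ℝ, 0 < d ∧ ∀ a ∈ A, a ≠ x₀ → d ≤ dist a x₀ := by
    clear hA
    induction A using Finset.induction_on with
    | empty => exact ⟨1, one_pos, fun a ha => absurd ha (Finset.notMem_empty a)⟩
    | insert b A _ ih =>
      obtain ⟨d, hd, hdA⟩ := ih
      rcases eq_or_ne b x₀ with rfl | hb
      · refine ⟨d, hd, fun a ha hne => ?_⟩
        rcases Finset.mem_insert.1 ha with rfl | ha
        · exact absurd rfl hne
        · exact hdA a ha hne
      · refine ⟨min d (dist b x₀), lt_min hd (dist_pos.2 hb), fun a ha hne => ?_⟩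
        rcases Finset.mem_insert.1 ha with rfl | ha
        · exact min_le_right _ _
        · exact (min_le_left _ _).trans (hdA a ha hne)
  set r : ℝ := d * Real.exp (-((1 - ε) / s)) with hr
  have hr0 : 0 < r := mul_pos hd (Real.exp_pos _)
  have hlogr : Real.log r = Real.log d - (1 - ε) / s := by
    rw [hr, Real.log_mul hd.ne' (Real.exp_pos _).ne', Real.log_exp]
    ring
  let g : M → ℝ := fun x => max 0 (min (1 - ε) (s * (Real.log (dist x x₀) - Real.log r)))
  obtain ⟨T, hT1, hT2⟩ := exists_cut h x₀ g hε hε1 hs.le hes (fun x => le_max_left _ _)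
    (fun x => max_le (by linarith) (min_le_left _ _)) (fun x y hx hxy => by
      have hdx : 0 < dist x x₀ := dist_pos.2 hx
      have h1 := clamp_sub_le (1 - ε) (s * (Real.log (dist x x₀) - Real.log r))
        (s * (Real.log (dist y x₀) - Real.log r))
      have h2 : s * (Real.log (dist x x₀) - Real.log r) - s * (Real.log (dist y x₀) - Real.log r) =
          s * (Real.log (dist x x₀) - Real.log (dist y x₀)) := by ring
      rw [h2, abs_mul, abs_of_pos hs] at h1
      have h3 := log_sub_mul_le hdx hxy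
      have h4 : dist y x₀ - dist x x₀ ≤ dist x y := by
        have := dist_triangle_left y x₀ x
        linarith
      calc |g x - g y| * dist x x₀ ≤
          (s * |Real.log (dist x x₀) - Real.log (dist y x₀)|) * dist x x₀ :=
            mul_le_mul_of_nonneg_right h1 dist_nonneg
        _ = s * (|Real.log (dist x x₀) - Real.log (dist y x₀)| * dist x x₀) := by ring
        _ ≤ s * dist x y := mul_le_mul_of_nonneg_left (h3.trans h4) hs.le)
  refine ⟨T, g, r, hr0, hT1, hT2, fun x hx hxr => ?_, hA x₀ T g hT1 hT2 fun x hx hne => ?_⟩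
  · have h1 : Real.log (dist x x₀) ≤ Real.log r := Real.log_le_log (dist_pos.2 hx) hxr.le
    show max 0 (min (1 - ε) (s * (Real.log (dist x x₀) - Real.log r))) = 0
    rw [max_eq_left]
    exact (min_le_right _ _).trans (mul_nonpos_of_nonneg_of_nonpos hs.le (by linarith))
  · have h1 : Real.log d ≤ Real.log (dist x x₀) := Real.log_le_log hd (hdA x hx hne)
    show max 0 (min (1 - ε) (s * (Real.log (dist x x₀) - Real.log r))) = 1 - ε
    have h2 : 1 - ε ≤ s * (Real.log (dist x x₀) - Real.log r) := by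
      have h3 : (1 - ε) / s ≤ Real.log (dist x x₀) - Real.log r := by rw [hlogr]; linarith
      rw [div_le_iff₀ hs] at h3
      linarith
    rw [min_eq_left h2, max_eq_right (by linarith)]

/-- cutoff at infinity -/
theorem far (h : IsLipschitzFree p M o Z δ) (C : Set Z) (hC : IsCompact C) {η : ℝ}
    (hη : 0 < η) : ∃ (T : Z →L[ℝ] Z) (g : M → ℝ) (R : ℝ),
      (∀ x y, T (δ x - δ y) = g x • (δ x - δ o) - g y • (δ y - δ o)) ∧ (∀ z, ‖T z‖ ≤ ‖z‖) ∧
      (∀ x, x ≠ o → R < dist x o → g x = 0) ∧ (∀ z ∈ C, ‖T z - z‖ < η) := by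
  classical
  obtain ⟨A, ε, s, hε, hε1, hs, hes, hA⟩ := cut_approx h C hC hη
  set R₀ : ℝ := 1 + ∑ a ∈ A, dist a o with hR₀
  have hsum : 0 ≤ ∑ a ∈ A, dist a o := Finset.sum_nonneg fun _ _ => dist_nonneg
  have hR₀0 : 0 < R₀ := by linarith
  set R : ℝ := R₀ * Real.exp ((1 - ε) / s) with hR
  have hR0 : 0 < R := mul_pos hR₀0 (Real.exp_pos _)
  have hlogR : Real.log R = Real.log R₀ + (1 - ε) / s := by
    rw [hR, Real.log_mul hR₀0.ne' (Real.exp_pos _).ne', Real.log_exp]
  let g : M → ℝ := fun x => max 0 (min (1 - ε) (s * (Real.log R - Real.log (dist x o))))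
  obtain ⟨T, hT1, hT2⟩ := exists_cut h o g hε hε1 hs.le hes (fun x => le_max_left _ _)
    (fun x => max_le (by linarith) (min_le_left _ _)) (fun x y hx hxy => by
      have hdx : 0 < dist x o := dist_pos.2 hx
      have h1 := clamp_sub_le (1 - ε) (s * (Real.log R - Real.log (dist x o)))
        (s * (Real.log R - Real.log (dist y o)))
      have h2 : s * (Real.log R - Real.log (dist x o)) - s * (Real.log R - Real.log (dist y o)) =
          -(s * (Real.log (dist x o) - Real.log (dist y o))) := by ring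
      rw [h2, abs_neg, abs_mul, abs_of_pos hs] at h1
      have h3 := log_sub_mul_le hdx hxy
      have h4 : dist y o - dist x o ≤ dist x y := by
        have := dist_triangle_left y o x
        linarith
      calc |g x - g y| * dist x o ≤
          (s * |Real.log (dist x o) - Real.log (dist y o)|) * dist x o :=
            mul_le_mul_of_nonneg_right h1 dist_nonneg
        _ = s * (|Real.log (dist x o) - Real.log (dist y o)| * dist x o) := by ring
        _ ≤ s * dist x y := mul_le_mul_of_nonneg_left (h3.trans h4) hs.le)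
  refine ⟨T, g, R, hT1, hT2, fun x hx hxR => ?_, hA o T g hT1 hT2 fun x hx hne => ?_⟩
  · have h1 : Real.log R ≤ Real.log (dist x o) := Real.log_le_log hR0 hxR.le
    show max 0 (min (1 - ε) (s * (Real.log R - Real.log (dist x o)))) = 0
    rw [max_eq_left]
    exact (min_le_right _ _).trans (mul_nonpos_of_nonneg_of_nonpos hs.le (by linarith))
  · have h0 : dist x o ≤ R₀ := by
      have : dist x o ≤ ∑ a ∈ A, dist a o :=
        Finset.single_le_sum (f := fun a => dist a o) (fun _ _ => dist_nonneg) hx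
      linarith
    have h1 : Real.log (dist x o) ≤ Real.log R₀ := Real.log_le_log (dist_pos.2 hne) h0
    show max 0 (min (1 - ε) (s * (Real.log R - Real.log (dist x o)))) = 1 - ε
    have h2 : 1 - ε ≤ s * (Real.log R - Real.log (dist x o)) := by
      have h3 : (1 - ε) / s ≤ Real.log R - Real.log (dist x o) := by rw [hlogR]; linarith
      rw [div_le_iff₀ hs] at h3
      linarith
    rw [min_eq_left h2, max_eq_right (by linarith)]

/-- span of differences of evaluations at points of `S` -/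
def WW (δ : M → Z) (S : Set M) : Submodule ℝ Z :=
  Submodule.span ℝ {z | ∃ x ∈ S, ∃ y ∈ S, z = δ x - δ y}

lemma cut_mem {S S' : Set M} {x₀ : M} (hx₀ : x₀ ∈ S') {g : M → ℝ} {T : Z →L[ℝ] Z}
    (hT : ∀ x y, T (δ x - δ y) = g x • (δ x - δ x₀) - g y • (δ y - δ x₀))
    (hg : ∀ x ∈ S, x ≠ x₀ → g x ≠ 0 → x ∈ S') : ∀ z ∈ WW δ S, T z ∈ WW δ S' := by
  have h1 : ∀ x ∈ S, g x • (δ x - δ x₀) ∈ WW δ S' := by
    intro x hx
    rcases eq_or_ne x x₀ with rfl | hne
    · rw [sub_self, smul_zero]; exact Submodule.zero_mem _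
    · by_cases hgx : g x = 0
      · rw [hgx, zero_smul]; exact Submodule.zero_mem _
      · exact Submodule.smul_mem _ _ (Submodule.subset_span ⟨x, hg x hx hne hgx, x₀, hx₀, rfl⟩)
  have h2 : (WW δ S).map (T : Z →ₗ[ℝ] Z) ≤ WW δ S' := by
    unfold WW
    rw [Submodule.map_span, Submodule.span_le]
    rintro _ ⟨_, ⟨x, hx, y, hy, rfl⟩, rfl⟩
    show T (δ x - δ y) ∈ WW δ S'
    rw [hT]
    exact Submodule.sub_mem _ (h1 x hx) (h1 y hy)
  intro z hz
  exact h2 ⟨z, hz, rfl⟩

end

theorem hasMAP (p : ℝ) (h0 : 0 < p) (h1 : p ≤ 1) (M : Type) [MetricSpace M] [ProperSpace M]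
    [Countable M] (o : M) (Z : Type) [NormedAddCommGroup Z] [Module ℝ Z] (δ : M → Z)
    (h : IsLipschitzFree p M o Z δ) : HasMAP p Z := by
  classical
  have hp : Fact (0 < p ∧ p ≤ 1) := ⟨h0, h1⟩
  intro C hC ε hε
  set ε' : ℝ := ε ^ p with hε'
  have hε'0 : 0 < ε' := Real.rpow_pos_of_pos hε _
  have : Nonempty M := ⟨o⟩
  obtain ⟨e, he⟩ := exists_surjective_nat M
  obtain ⟨T₀, g₀, R, hT₀, hT₀n, hg₀, hC₀⟩ := far h C hC (half_pos hε'0)
  let P : Set M × (Z →L[ℝ] Z) → Prop := fun s =>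
    (∀ z, ‖s.2 z‖ ≤ ‖z‖) ∧ ∀ x y, s.2 (δ x - δ y) ∈ WW δ s.1
  have hinit : P (insert o (Metric.closedBall o R), T₀) := by
    refine ⟨hT₀n, fun x y => ?_⟩
    refine cut_mem (S := Set.univ) (mem_insert _ _) hT₀ (fun x _ hx hgx => ?_) _
      (Submodule.subset_span ⟨x, mem_univ _, y, mem_univ _, rfl⟩)
    refine mem_insert_of_mem _ ?_
    rw [Metric.mem_closedBall]
    by_contra hcon
    exact hgx (hg₀ x hx (not_le.1 hcon))
  have hstep : ∀ (n : ℕ) (s : {s // P s}), ∃ (s' : {s // P s}) (U : Set M), IsOpen U ∧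
      (e n ∈ s.1.1 → e n ∈ U) ∧ (s.1.1 \ s'.1.1 ⊆ U) ∧ (s'.1.1 ∩ U ⊆ {e n}) ∧
      s'.1.1 ⊆ s.1.1 ∧ ∀ z ∈ C, ‖s'.1.2 z - s.1.2 z‖ < ε' * (1 / 2) ^ (n + 2) := by
    rintro n ⟨⟨S, A⟩, hA1, hA2⟩
    by_cases hn : e n ∈ S
    · obtain ⟨T, g, r, hr, hT, hTn, hg, hTC⟩ := near h (A '' C) (hC.image A.continuous)
        (η := ε' * (1 / 2) ^ (n + 2)) (by positivity) (e n)
      refine ⟨⟨({x ∈ S | x = e n ∨ r ≤ dist x (e n)}, T.comp A), fun z => ?_, fun x y => ?_⟩,
        Metric.ball (e n) r, Metric.isOpen_ball, fun _ => Metric.mem_ball_self hr, ?_, ?_, ?_,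
        fun z hz => ?_⟩
      · exact (hTn (A z)).trans (hA1 z)
      · refine cut_mem (S := S) ?_ hT (fun x hx hne hgx => ?_) _ (hA2 x y)
        · exact ⟨hn, Or.inl rfl⟩
        · refine ⟨hx, Or.inr ?_⟩
          by_contra hcon
          exact hgx (hg x hne (not_le.1 hcon))
      · rintro x ⟨hx, hx'⟩
        rw [Metric.mem_ball]
        by_contra hcon
        exact hx' ⟨hx, Or.inr (not_lt.1 hcon)⟩
      · rintro x ⟨⟨-, hx⟩, hx'⟩
        rw [Metric.mem_ball] at hx'
        rcases hx with hx | hx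
        · exact hx
        · linarith
      · exact fun x hx => hx.1
      · exact hTC (A z) ⟨z, hz, rfl⟩
    · refine ⟨⟨(S, A), hA1, hA2⟩, ∅, isOpen_empty, fun hc => absurd hc hn, ?_, ?_, subset_rfl,
        fun z hz => ?_⟩
      · rw [Set.sdiff_self]
      · rw [inter_empty]; exact empty_subset _
      · rw [sub_self, norm_zero]; positivity
  choose nxt U hU1 hU2 hU3 hU4 hU5 hU6 using hstep
  let S : ℕ → {s // P s} := fun n => Nat.rec ⟨_, hinit⟩ nxt n
  have hSs : ∀ n, S (n + 1) = nxt n (S n) := fun n => rfl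
  have hanti : Antitone fun n => (S n).1.1 := antitone_nat_of_succ_le fun n => by
    show (nxt n (S n)).1.1 ⊆ (S n).1.1
    exact hU5 n (S n)
  -- the cover
  have hcover : insert o (Metric.closedBall o R) ⊆ ⋃ n, U n (S n) := by
    intro x hx
    obtain ⟨i, rfl⟩ := he x
    by_contra hcon
    rw [mem_iUnion, not_exists] at hcon
    have h2 : ∀ j, e i ∈ (S j).1.1 := by
      intro j
      induction j with
      | zero => exact hx
      | succ j ih =>
        by_contra hc
        rw [hSs] at hc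
        exact hcon j (hU3 j (S j) ⟨ih, hc⟩)
    exact hcon i (hU2 i (S i) (h2 i))
  have hcomp : IsCompact (insert o (Metric.closedBall o R)) :=
    (isCompact_closedBall o R).insert o
  obtain ⟨t, ht⟩ := hcomp.elim_finite_subcover (fun n => U n (S n)) (fun n => hU1 n (S n)) hcover
  obtain ⟨n, hn⟩ := t.exists_nat_subset_range
  have hfinite : ((S n).1.1).Finite := by
    refine ((Finset.range n).finite_toSet.image e).subset fun x hx => ?_
    have hx0 : x ∈ insert o (Metric.closedBall o R) := hanti (Nat.zero_le n) hx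
    obtain ⟨j, hj, hxj⟩ := mem_iUnion₂.1 (ht hx0)
    have hjn : j < n := Finset.mem_range.1 (hn hj)
    have h2 : x ∈ (S (j + 1)).1.1 := hanti (Nat.succ_le_of_lt hjn) hx
    have h3 : x ∈ ({e j} : Set M) := hU4 j (S j) ⟨h2, hxj⟩
    exact ⟨j, Finset.mem_coe.2 (Finset.mem_range.2 hjn), (mem_singleton_iff.1 h3).symm⟩
  have hbound : ∀ n, ∀ z ∈ C, ‖(S n).1.2 z - z‖ < ε' * (1 - (1 / 2) ^ (n + 1)) := by
    intro n
    induction n with
    | zero =>
      intro z hz
      have h2 := hC₀ z hz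
      have h3 : (S 0).1.2 = T₀ := rfl
      rw [h3]
      refine h2.trans_le (le_of_eq ?_)
      norm_num
      ring
    | succ n ih =>
      intro z hz
      have h2 := ih z hz
      have h3 := hU6 n (S n) z hz
      rw [← hSs] at h3
      have h4 : (S (n + 1)).1.2 z - z = ((S (n + 1)).1.2 z - (S n).1.2 z) + ((S n).1.2 z - z) := by
        abel
      rw [h4]
      refine (norm_add_le _ _).trans_lt ?_
      refine (add_lt_add h3 h2).trans_le (le_of_eq ?_)
      ring
  refine ⟨(S n).1.2, ?_, fun z => ?_, fun z hz => ?_⟩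
  · have hcs : ContinuousSMul ℝ Z := continuousSMul_of h0 h.banach.1
    have hfin : {z | ∃ x ∈ (S n).1.1, ∃ y ∈ (S n).1.1, z = δ x - δ y}.Finite := by
      refine ((hfinite.prod hfinite).image fun q : M × M => δ q.1 - δ q.2).subset ?_
      rintro z ⟨x, hx, y, hy, rfl⟩
      exact ⟨(x, y), ⟨hx, hy⟩, rfl⟩
    have hfd : FiniteDimensional ℝ (WW δ (S n).1.1) := FiniteDimensional.span_of_finite ℝ hfin
    have hclosed : IsClosed (WW δ (S n).1.1 : Set Z) := Submodule.closed_of_finiteDimensional _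
    have h2 : LinearMap.range ((S n).1.2 : Z →ₗ[ℝ] Z) ≤ WW δ (S n).1.1 := by
      rintro _ ⟨z, rfl⟩
      have h3 : ∀ w ∈ (Submodule.span ℝ (Set.range δ) : Set Z),
          (S n).1.2 w ∈ (WW δ (S n).1.1 : Set Z) := by
        intro w hw
        have h4 : (Submodule.span ℝ (Set.range δ)).map ((S n).1.2 : Z →ₗ[ℝ] Z) ≤
            WW δ (S n).1.1 := by
          rw [Submodule.map_span, Submodule.span_le]
          rintro _ ⟨_, ⟨x, rfl⟩, rfl⟩
          have h5 := (S n).2.2 x o
          rw [h.base, sub_zero] at h5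
          exact h5
        exact h4 ⟨w, hw, rfl⟩
      have h4 := map_mem_closure (S n).1.2.continuous (h.dense z) h3
      rwa [hclosed.closure_eq] at h4
    exact Submodule.finiteDimensional_of_le h2
  · unfold pnorm
    exact Real.rpow_le_rpow (norm_nonneg _) ((S n).2.1 z) (one_div_pos.2 h0).le
  · rw [pnorm_le_iff _ hε.le]
    refine (hbound n z hz).le.trans ?_
    have h2 : (0 : ℝ) < (1 / 2) ^ (n + 1) := by positivity
    nlinarith

/-- **MP_557517_an, Q1.** -/
theorem result (p : ℝ) (h0 : 0 < p) (h1 : p ≤ 1) (M : Type) [MetricSpace M] [ProperSpace M]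
    [Countable M] (o : M) :
    (∃ (Z : Type) (_ : NormedAddCommGroup Z) (_ : Module ℝ Z) (δ : M → Z),
      IsLipschitzFree p M o Z δ) ∧
    ∀ (Z : Type) [NormedAddCommGroup Z] [Module ℝ Z] (δ : M → Z),
      IsLipschitzFree p M o Z δ → HasMAP p Z := by
  have hp : Fact (0 < p ∧ p ≤ 1) := ⟨h0, h1⟩
  exact ⟨⟨FF p M, inferInstance, inferInstance, fun x => cl x o, isLipschitzFree o⟩,
    fun Z _ _ δ h => hasMAP p h0 h1 M o Z δ h⟩

end Pool.Agent.Results.MP_557517_an.CountableProperMAP
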